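import Mathlib

/-!
# Every pair of vertices of a digraph of minimum out-degree three is separated

Helper definitions and the proof by a minimal counterexample in a wider class of instances.
-/

namespace Pool.Agent.Results.MP_97603a_co.PairsSeparated

open Finset

section Core

variable {α : Type*} [DecidableEq α]

/-- every vertex of `P` is a terminal or has an out-neighbour in `P` -/
def OK (T : Finset α) (N : α → Finset α) (P : Finset α) : Prop :=
  ∀ v ∈ P, v ∈ T ∨ ∃ w ∈ P, w ∈ N v

/-- disjoint good sets around `x` and `y` -/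
def Sol (S T : Finset α) (x y : α) (N : α → Finset α) : Prop :=
  ∃ P Q : Finset α, P ⊆ S ∧ Q ⊆ S ∧ Disjoint P Q ∧ x ∈ P ∧ y ∈ Q ∧ OK T N P ∧ OK T N Q

/-- the class of instances -/
structure Good (S T : Finset α) (x y : α) (N : α → Finset α) (own : α → α) : Prop where
  hT : T ⊆ S
  hx : x ∈ S
  hy : y ∈ S
  hxT : x ∉ T
  hyT : y ∉ T
  hxy : x ≠ y
  hN : ∀ v ∈ S, v ∉ T → N v ⊆ S
  hl : ∀ v ∈ S, v ∉ T → v ∉ N v
  hx2 : 2 ≤ ((N x).erase y).card
  hy2 : 2 ≤ ((N y).erase x).card
  hw : ∀ w ∈ S, w ∉ T → w ≠ x → w ≠ y →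
    3 ≤ (N w).card ∨ (2 ≤ (N w).card ∧ own w ∈ N w ∧ own w ∈ T)
  hinj : ∀ w ∈ S, w ∉ T → w ≠ x → w ≠ y → (N w).card < 3 →
    ∀ w' ∈ S, w' ∉ T → w' ≠ x → w' ≠ y → (N w').card < 3 → own w = own w' → w = w'

/-- a minimal unsolvable exact instance -/
structure Crit (S T : Finset α) (x y : α) (N : α → Finset α) (own : α → α) : Prop
    extends Good S T x y N own where
  ex : (N x).card = 2
  ey : (N y).card = 2
  exy : y ∉ N x
  eyx : x ∉ N y
  ew : ∀ w ∈ S, w ∉ T → w ≠ x → w ≠ y → (N w).card ≤ 3
  nosol : ¬ Sol S T x y N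
  ih : ∀ (S' T' : Finset α) (x' y' : α) (N' : α → Finset α) (own' : α → α),
    S'.card + (S' \ T').card < S.card + (S \ T).card →
      Good S' T' x' y' N' own' → Sol S' T' x' y' N'

omit [DecidableEq α] in
lemma Sol.symm {S T : Finset α} {x y : α} {N : α → Finset α} (h : Sol S T x y N) :
    Sol S T y x N := by
  obtain ⟨P, Q, hP, hQ, hd, hx, hy, h1, h2⟩ := h
  exact ⟨Q, P, hQ, hP, hd.symm, hy, hx, h2, h1⟩

lemma Good.symm {S T : Finset α} {x y : α} {N : α → Finset α} {own : α → α}
    (h : Good S T x y N own) : Good S T y x N own where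
  hT := h.hT
  hx := h.hy
  hy := h.hx
  hxT := h.hyT
  hyT := h.hxT
  hxy := h.hxy.symm
  hN := h.hN
  hl := h.hl
  hx2 := h.hy2
  hy2 := h.hx2
  hw := fun w hw hwT hwy hwx => h.hw w hw hwT hwx hwy
  hinj := fun w hw hwT hwy hwx hc w' hw' hwT' hwy' hwx' hc' ho =>
    h.hinj w hw hwT hwx hwy hc w' hw' hwT' hwx' hwy' hc' ho

lemma Crit.symm {S T : Finset α} {x y : α} {N : α → Finset α} {own : α → α}
    (h : Crit S T x y N own) : Crit S T y x N own where
  toGood := h.toGood.symm
  ex := h.ey
  ey := h.ex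
  exy := h.eyx
  eyx := h.exy
  ew := fun w hw hwT hwy hwx => h.ew w hw hwT hwx hwy
  nosol := fun hs => h.nosol hs.symm
  ih := h.ih

variable {S T : Finset α} {x y : α} {N : α → Finset α} {own : α → α}

lemma Crit.direct (h : Crit S T x y N own) (P : Finset α) (hP : P ⊆ S) (hxP : x ∈ P)
    (hyP : y ∉ P) (hok : OK T N P) (hc : ∀ v ∈ S, v ∉ T → v ∉ P → ¬ N v ⊆ P) : False := by
  apply h.nosol
  refine ⟨P, S \ P, hP, sdiff_subset, disjoint_sdiff, hxP, by simp [h.hy, hyP], hok, ?_⟩
  intro v hv
  rw [mem_sdiff] at hv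
  by_cases hvT : v ∈ T
  · left; exact hvT
  · right
    have := hc v hv.1 hvT hv.2
    rw [not_subset] at this
    obtain ⟨w, hw, hwP⟩ := this
    exact ⟨w, by simp [h.hN v hv.1 hvT hw, hwP], hw⟩

/-- no two-cycle through the root `x` -/
lemma Crit.no2x (h : Crit S T x y N own) {u : α} (hu : u ∈ N x) (huT : u ∉ T) :
    x ∉ N u := by
  intro hu'
  have huS : u ∈ S := h.hN x h.hx h.hxT hu
  have huy : u ≠ y := fun e => h.exy (e ▸ hu)
  refine h.direct {x, u} ?_ (by simp) ?_ ?_ ?_
  · intro z hz
    simp only [mem_insert, mem_singleton] at hz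
    rcases hz with rfl | rfl
    · exact h.hx
    · exact huS
  · simp only [mem_insert, mem_singleton, not_or]
    exact ⟨h.hxy.symm, huy.symm⟩
  · intro z hz
    simp only [mem_insert, mem_singleton] at hz
    rcases hz with rfl | rfl
    · exact Or.inr ⟨u, by simp, hu⟩
    · exact Or.inr ⟨x, by simp, hu'⟩
  · intro v hv hvT hvP hsub
    simp only [mem_insert, mem_singleton, not_or] at hvP
    by_cases hvy : v = y
    · subst hvy
      have h1 : N v ⊆ {u} := by
        intro z hz
        have := hsub hz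
        simp only [mem_insert, mem_singleton] at this
        rcases this with rfl | rfl
        · exact absurd hz h.eyx
        · simp
      have := card_le_card h1
      rw [h.ey] at this
      simp at this
    · rcases h.hw v hv hvT hvP.1 hvy with h3 | ⟨_, h4, h5⟩
      · have := card_le_card hsub
        have h6 : ({x, u} : Finset α).card ≤ 2 := card_le_two
        omega
      · have := hsub h4
        simp only [mem_insert, mem_singleton] at this
        rcases this with e | e
        · exact h.hxT (e ▸ h5)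
        · exact huT (e ▸ h5)

/-- no vertex points to both roots -/
lemma Crit.noboth (h : Crit S T x y N own) {w : α} (hwS : w ∈ S) (hwT : w ∉ T)
    (hwx : w ≠ x) (hwy : w ≠ y) (h1 : x ∈ N w) (h2 : y ∈ N w) : False := by
  have hg : Good S (insert w T) x y N own := by
    refine ⟨?_, h.hx, h.hy, ?_, ?_, h.hxy, ?_, ?_, h.hx2, h.hy2, ?_, ?_⟩
    · intro z hz
      rw [mem_insert] at hz
      rcases hz with rfl | hz
      · exact hwS
      · exact h.hT hz
    · simp [h.hxT, hwx.symm]
    · simp [h.hyT, hwy.symm]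
    · intro v hv hvT
      exact h.hN v hv (fun hh => hvT (mem_insert_of_mem hh))
    · intro v hv hvT
      exact h.hl v hv (fun hh => hvT (mem_insert_of_mem hh))
    · intro v hv hvT hvx hvy
      rcases h.hw v hv (fun hh => hvT (mem_insert_of_mem hh)) hvx hvy with h3 | ⟨h3, h4, h5⟩
      · exact Or.inl h3
      · exact Or.inr ⟨h3, h4, mem_insert_of_mem h5⟩
    · intro v hv hvT hvx hvy hc v' hv' hvT' hvx' hvy' hc' ho
      exact h.hinj v hv (fun hh => hvT (mem_insert_of_mem hh)) hvx hvy hc v' hv'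
        (fun hh => hvT' (mem_insert_of_mem hh)) hvx' hvy' hc' ho
  have hm : S.card + (S \ insert w T).card < S.card + (S \ T).card := by
    apply Nat.add_lt_add_left
    apply card_lt_card
    refine ⟨sdiff_subset_sdiff subset_rfl (subset_insert _ _), ?_⟩
    intro hh
    have := hh (mem_sdiff.2 ⟨hwS, hwT⟩)
    simp at this
  obtain ⟨P, Q, hP, hQ, hd, hx, hy, ok1, ok2⟩ := h.ih _ _ _ _ _ _ hm hg
  apply h.nosol
  refine ⟨P, Q, hP, hQ, hd, hx, hy, ?_, ?_⟩
  · intro z hz
    rcases ok1 z hz with h3 | h3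
    · rw [mem_insert] at h3
      rcases h3 with rfl | h3
      · exact Or.inr ⟨x, hx, h1⟩
      · exact Or.inl h3
    · exact Or.inr h3
  · intro z hz
    rcases ok2 z hz with h3 | h3
    · rw [mem_insert] at h3
      rcases h3 with rfl | h3
      · exact Or.inr ⟨y, hy, h2⟩
      · exact Or.inl h3
    · exact Or.inr h3

/-- the contraction map -/
def cm (u v z : α) : α := if z = u then v else z

lemma card_image_cm {u v : α} {A : Finset α} (h : ¬ (u ∈ A ∧ v ∈ A)) :
    (A.image (cm u v)).card = A.card := by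
  apply card_image_of_injOn
  intro a ha b hb hab
  simp only [mem_coe] at ha hb
  simp only [cm] at hab
  by_cases h1 : a = u
  · by_cases h2 : b = u
    · rw [h1, h2]
    · rw [if_pos h1, if_neg h2] at hab
      exact absurd ⟨h1 ▸ ha, hab ▸ hb⟩ h
  · by_cases h2 : b = u
    · rw [if_neg h1, if_pos h2] at hab
      exact absurd ⟨h2 ▸ hb, hab ▸ ha⟩ h
    · rw [if_neg h1, if_neg h2] at hab
      exact hab

lemma card_le_image_cm {u v : α} (A : Finset α) :
    A.card ≤ (A.image (cm u v)).card + 1 := by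
  have h1 : A.erase u ⊆ A.image (cm u v) := by
    intro z hz
    rw [mem_erase] at hz
    rw [mem_image]
    exact ⟨z, hz.2, by simp [cm, hz.1]⟩
  have h2 := card_le_card h1
  have h3 := pred_card_le_card_erase (s := A) (a := u)
  omega

lemma mem_image_cm_of_ne {u v z : α} {A : Finset α} (hz : z ∈ A) (hzu : z ≠ u) :
    z ∈ A.image (cm u v) := by
  rw [mem_image]
  exact ⟨z, hz, by simp [cm, hzu]⟩

lemma mem_image_cm_self {u v : α} {A : Finset α} (hz : u ∈ A) :
    v ∈ A.image (cm u v) := by
  rw [mem_image]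
  exact ⟨u, hz, by simp [cm]⟩

lemma of_mem_image_cm {u v z : α} {A : Finset α} (hz : z ∈ A.image (cm u v)) :
    (z = v ∧ u ∈ A) ∨ (z ≠ u ∧ z ∈ A) := by
  rw [mem_image] at hz
  obtain ⟨a, ha, h1⟩ := hz
  simp only [cm] at h1
  by_cases h2 : a = u
  · rw [if_pos h2] at h1
    exact Or.inl ⟨h1.symm, h2 ▸ ha⟩
  · rw [if_neg h2] at h1
    subst h1
    exact Or.inr ⟨h2, ha⟩

lemma lift_ok {T T' : Finset α} {N : α → Finset α} {u v : α} (huv : v ∈ N u)
    (hT' : ∀ z ∈ T', z ∈ T ∨ (z = v ∧ u ∈ N v)) {P : Finset α}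
    (hP : OK T' (fun w => (N w).image (cm u v)) P) :
    OK T N (if v ∈ P then insert u P else P) := by
  by_cases hv : v ∈ P
  · rw [if_pos hv]
    intro z hz
    rw [mem_insert] at hz
    rcases hz with rfl | hz
    · exact Or.inr ⟨v, mem_insert_of_mem hv, huv⟩
    · rcases hP z hz with h1 | ⟨w, hw, h1⟩
      · rcases hT' z h1 with h2 | ⟨rfl, h2⟩
        · exact Or.inl h2
        · exact Or.inr ⟨u, mem_insert_self _ _, h2⟩
      · rcases of_mem_image_cm h1 with ⟨_, h2⟩ | ⟨_, h2⟩
        · exact Or.inr ⟨u, mem_insert_self _ _, h2⟩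
        · exact Or.inr ⟨w, mem_insert_of_mem hw, h2⟩
  · rw [if_neg hv]
    intro z hz
    rcases hP z hz with h1 | ⟨w, hw, h1⟩
    · rcases hT' z h1 with h2 | ⟨rfl, h2⟩
      · exact Or.inl h2
      · exact absurd hz hv
    · rcases of_mem_image_cm h1 with ⟨rfl, h2⟩ | ⟨_, h2⟩
      · exact absurd hw hv
      · exact Or.inr ⟨w, hw, h2⟩

lemma lift_sol {S T T' : Finset α} {N : α → Finset α} {u v r1 r2 : α} (huS : u ∈ S)
    (huv : v ∈ N u) (hT' : ∀ z ∈ T', z ∈ T ∨ (z = v ∧ u ∈ N v))
    (hs : Sol (S.erase u) T' r1 r2 (fun w => (N w).image (cm u v))) :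
    ∃ P Q : Finset α, P ⊆ S ∧ Q ⊆ S ∧ Disjoint P Q ∧ r1 ∈ P ∧ r2 ∈ Q ∧ OK T N P ∧ OK T N Q ∧
      (v ∈ P → u ∈ P) ∧ (v ∈ Q → u ∈ Q) := by
  obtain ⟨P, Q, hP, hQ, hd, h1, h2, ok1, ok2⟩ := hs
  have huP : u ∉ P := fun hh => by simpa using hP hh
  have huQ : u ∉ Q := fun hh => by simpa using hQ hh
  have hPS : P ⊆ S := hP.trans (erase_subset _ _)
  have hQS : Q ⊆ S := hQ.trans (erase_subset _ _)
  refine ⟨if v ∈ P then insert u P else P, if v ∈ Q then insert u Q else Q, ?_, ?_, ?_, ?_, ?_,
    lift_ok huv hT' ok1, lift_ok huv hT' ok2, ?_, ?_⟩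
  · split_ifs
    · exact insert_subset huS hPS
    · exact hPS
  · split_ifs
    · exact insert_subset huS hQS
    · exact hQS
  · split_ifs with hvP hvQ hvQ
    · exact absurd hvQ (disjoint_left.1 hd hvP)
    · rw [disjoint_insert_left]; exact ⟨huQ, hd⟩
    · rw [disjoint_insert_right]; exact ⟨huP, hd⟩
    · exact hd
  · split_ifs
    · exact mem_insert_of_mem h1
    · exact h1
  · split_ifs
    · exact mem_insert_of_mem h2
    · exact h2
  · split_ifs with hv
    · intro _; exact mem_insert_self _ _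
    · intro hh; exact absurd hh hv
  · split_ifs with hv
    · intro _; exact mem_insert_self _ _
    · intro hh; exact absurd hh hv

lemma measure_erase {S T T' : Finset α} {u : α} (hu : u ∈ S) (hT : T ⊆ T') :
    (S.erase u).card + (S.erase u \ T').card < S.card + (S \ T).card := by
  have h1 : (S.erase u).card < S.card := card_erase_lt_of_mem hu
  have h2 : (S.erase u \ T').card ≤ (S \ T).card :=
    card_le_card (sdiff_subset_sdiff (erase_subset _ _) hT)
  omega

/-- an arc between non-roots, not in a two-cycle, has a common in-neighbour -/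
lemma Crit.claimA (h : Crit S T x y N own) {u v : α} (huS : u ∈ S) (huT : u ∉ T)
    (hux : u ≠ x) (huy : u ≠ y) (huv : v ∈ N u) (hvx : v ≠ x) (hvy : v ≠ y)
    (h2 : v ∈ T ∨ u ∉ N v) : ∃ w ∈ S, w ∉ T ∧ u ∈ N w ∧ v ∈ N w := by
  by_contra hcon
  push Not at hcon
  have hvS : v ∈ S := h.hN u huS huT huv
  have huvne : v ≠ u := fun e => h.hl u huS huT (e ▸ huv)
  have hno : ∀ w ∈ S, w ∉ T → ¬ (u ∈ N w ∧ v ∈ N w) := fun w h3 h4 h5 =>
    hcon w h3 h4 h5.1 h5.2
  have hg : Good (S.erase u) T x y (fun w => (N w).image (cm u v)) own := by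
    refine ⟨?_, ?_, ?_, h.hxT, h.hyT, h.hxy, ?_, ?_, ?_, ?_, ?_, ?_⟩
    · intro z hz
      exact mem_erase.2 ⟨fun e => huT (e ▸ hz), h.hT hz⟩
    · exact mem_erase.2 ⟨hux.symm, h.hx⟩
    · exact mem_erase.2 ⟨huy.symm, h.hy⟩
    · intro w hw hwT z hz
      have hwS : w ∈ S := mem_of_mem_erase hw
      rcases of_mem_image_cm hz with ⟨rfl, _⟩ | ⟨h3, h4⟩
      · exact mem_erase.2 ⟨huvne, hvS⟩
      · exact mem_erase.2 ⟨h3, h.hN w hwS hwT h4⟩
    · intro w hw hwT hz
      have hwS : w ∈ S := mem_of_mem_erase hw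
      rcases of_mem_image_cm hz with ⟨rfl, h4⟩ | ⟨h3, h4⟩
      · rcases h2 with h2 | h2
        · exact hwT h2
        · exact h2 h4
      · exact h.hl w hwS hwT h4
    · have h3 : y ∉ (N x).image (cm u v) := by
        intro hz
        rcases of_mem_image_cm hz with ⟨h5, _⟩ | ⟨_, h4⟩
        · exact hvy h5.symm
        · exact h.exy h4
      rw [erase_eq_of_notMem h3, card_image_cm (hno x h.hx h.hxT), h.ex]
    · have h3 : x ∉ (N y).image (cm u v) := by
        intro hz
        rcases of_mem_image_cm hz with ⟨h5, _⟩ | ⟨_, h4⟩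
        · exact hvx h5.symm
        · exact h.eyx h4
      rw [erase_eq_of_notMem h3, card_image_cm (hno y h.hy h.hyT), h.ey]
    · intro w hw hwT hwx hwy
      have hwS : w ∈ S := mem_of_mem_erase hw
      rw [card_image_cm (hno w hwS hwT)]
      rcases h.hw w hwS hwT hwx hwy with h3 | ⟨h3, h4, h5⟩
      · exact Or.inl h3
      · refine Or.inr ⟨h3, mem_image_cm_of_ne h4 ?_, h5⟩
        intro e
        exact huT (e ▸ h5)
    · intro w hw hwT hwx hwy hc w' hw' hwT' hwx' hwy' hc' ho
      have hwS : w ∈ S := mem_of_mem_erase hw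
      have hwS' : w' ∈ S := mem_of_mem_erase hw'
      rw [card_image_cm (hno w hwS hwT)] at hc
      rw [card_image_cm (hno w' hwS' hwT')] at hc'
      exact h.hinj w hwS hwT hwx hwy hc w' hwS' hwT' hwx' hwy' hc' ho
  have hs := h.ih _ _ _ _ _ _ (measure_erase huS subset_rfl) hg
  obtain ⟨P, Q, a1, a2, a3, a4, a5, a6, a7, _, _⟩ :=
    lift_sol (T := T) huS huv (fun z hz => Or.inl hz) hs
  exact h.nosol ⟨P, Q, a1, a2, a3, a4, a5, a6, a7⟩

lemma card_sub3 {A : Finset α} {a u v : α} (hA : A ⊆ {a, u, v}) (h : ¬ (u ∈ A ∧ v ∈ A)) :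
    A.card ≤ 2 := by
  by_cases hu : u ∈ A
  · have hv : v ∉ A := fun hh => h ⟨hu, hh⟩
    have h1 : A ⊆ {a, u} := by
      intro z hz
      have := hA hz
      simp only [mem_insert, mem_singleton] at this ⊢
      rcases this with e | e | e
      · exact Or.inl e
      · exact Or.inr e
      · exact absurd (e ▸ hz) hv
    exact (card_le_card h1).trans card_le_two
  · have h1 : A ⊆ {a, v} := by
      intro z hz
      have := hA hz
      simp only [mem_insert, mem_singleton] at this ⊢
      rcases this with e | e | e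
      · exact Or.inl e
      · exact absurd (e ▸ hz) hu
      · exact Or.inr e
    exact (card_le_card h1).trans card_le_two

lemma card_sub3' {A : Finset α} {a u v : α} (hA : A ⊆ {a, u, v}) (h : ¬ (u ∈ A ∧ v ∈ A))
    (ha : a ∉ A) : A.card ≤ 1 := by
  rw [card_le_one]
  intro p hp q hq
  have h1 := hA hp
  have h2 := hA hq
  simp only [mem_insert, mem_singleton] at h1 h2
  rcases h1 with e1 | e1 | e1 <;> rcases h2 with e2 | e2 | e2
  · rw [e1, e2]
  · exact absurd (e1 ▸ hp) ha
  · exact absurd (e1 ▸ hp) ha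
  · exact absurd (e2 ▸ hq) ha
  · rw [e1, e2]
  · exact absurd ⟨e1 ▸ hp, e2 ▸ hq⟩ h
  · exact absurd (e2 ▸ hq) ha
  · exact absurd ⟨e2 ▸ hq, e1 ▸ hp⟩ h
  · rw [e1, e2]

/-- two-cycle which is the out-neighbourhood of the root `x` -/
lemma Crit.claimBx (h : Crit S T x y N own) {u v : α} (huS : u ∈ S) (huT : u ∉ T)
    (huy : u ≠ y) (huv : v ∈ N u) (hvT : v ∉ T) (hvy : v ≠ y)
    (hvu : u ∈ N v) (hxu : u ∈ N x) :
    ∃ w ∈ S, w ∉ T ∧ w ≠ x ∧ u ∈ N w ∧ v ∈ N w := by
  by_contra hcon
  push Not at hcon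
  have hvS : v ∈ S := h.hN u huS huT huv
  have hno : ∀ w ∈ S, w ∉ T → w ≠ x → ¬ (u ∈ N w ∧ v ∈ N w) := fun w h3 h4 h6 h5 =>
    hcon w h3 h4 h6 h5.1 h5.2
  refine h.direct {x, u, v} ?_ (by simp) ?_ ?_ ?_
  · intro z hz
    simp only [mem_insert, mem_singleton] at hz
    rcases hz with rfl | rfl | rfl
    · exact h.hx
    · exact huS
    · exact hvS
  · simp only [mem_insert, mem_singleton, not_or]
    exact ⟨h.hxy.symm, huy.symm, hvy.symm⟩
  · intro z hz
    simp only [mem_insert, mem_singleton] at hz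
    rcases hz with rfl | rfl | rfl
    · exact Or.inr ⟨u, by simp, hxu⟩
    · exact Or.inr ⟨v, by simp, huv⟩
    · exact Or.inr ⟨u, by simp, hvu⟩
  · intro z hz hzT hzP hsub
    simp only [mem_insert, mem_singleton, not_or] at hzP
    by_cases hzy : z = y
    · subst hzy
      have := card_sub3' hsub (hno z hz hzT hzP.1) h.eyx
      rw [h.ey] at this
      omega
    · have h7 := card_sub3 hsub (hno z hz hzT hzP.1)
      rcases h.hw z hz hzT hzP.1 hzy with h3 | ⟨_, h4, h5⟩
      · omega
      · have := hsub h4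
        simp only [mem_insert, mem_singleton] at this
        rcases this with e | e | e
        · exact h.hxT (e ▸ h5)
        · exact huT (e ▸ h5)
        · exact hvT (e ▸ h5)

/-- a two-cycle between non-roots has two common in-neighbours -/
lemma Crit.claimB (h : Crit S T x y N own) {u v : α} (huS : u ∈ S) (huT : u ∉ T)
    (hux : u ≠ x) (huy : u ≠ y) (huv : v ∈ N u) (hvT : v ∉ T) (hvx : v ≠ x) (hvy : v ≠ y)
    (hvu : u ∈ N v) : 2 ≤ ((S \ T).filter (fun w => u ∈ N w ∧ v ∈ N w)).card := by
  by_contra hcon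
  have hle : ((S \ T).filter (fun w => u ∈ N w ∧ v ∈ N w)).card ≤ 1 := by omega
  rw [card_le_one] at hle
  have hun : ∀ w ∈ S, w ∉ T → (u ∈ N w ∧ v ∈ N w) → ∀ w' ∈ S, w' ∉ T →
      (u ∈ N w' ∧ v ∈ N w') → w = w' := by
    intro w h1 h2 h3 w' h1' h2' h3'
    exact hle w (by simp [h1, h2, h3]) w' (by simp [h1', h2', h3'])
  have hvS : v ∈ S := h.hN u huS huT huv
  have huvne : v ≠ u := fun e => h.hl u huS huT (e ▸ huv)
  have hnx : ¬ (u ∈ N x ∧ v ∈ N x) := by
    intro h3
    obtain ⟨w, h4, h5, h6, h7⟩ := h.claimBx huS huT huy huv hvT hvy hvu h3.1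
    exact h6 (hun w h4 h5 h7 x h.hx h.hxT h3)
  have hny : ¬ (u ∈ N y ∧ v ∈ N y) := by
    intro h3
    obtain ⟨w, h4, h5, h6, h7⟩ := h.symm.claimBx huS huT hux huv hvT hvx hvu h3.1
    exact h6 (hun w h4 h5 h7 y h.hy h.hyT h3)
  have hg : Good (S.erase u) (insert v T) x y (fun w => (N w).image (cm u v))
      (fun w => if u ∈ N w ∧ v ∈ N w then v else own w) := by
    refine ⟨?_, ?_, ?_, ?_, ?_, h.hxy, ?_, ?_, ?_, ?_, ?_, ?_⟩
    · intro z hz
      rw [mem_insert] at hz
      rcases hz with rfl | hz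
      · exact mem_erase.2 ⟨huvne, hvS⟩
      · exact mem_erase.2 ⟨fun e => huT (e ▸ hz), h.hT hz⟩
    · exact mem_erase.2 ⟨hux.symm, h.hx⟩
    · exact mem_erase.2 ⟨huy.symm, h.hy⟩
    · simp [h.hxT, hvx.symm]
    · simp [h.hyT, hvy.symm]
    · intro w hw hwT z hz
      have hwS : w ∈ S := mem_of_mem_erase hw
      have hwT2 : w ∉ T := fun hh => hwT (mem_insert_of_mem hh)
      rcases of_mem_image_cm hz with ⟨rfl, _⟩ | ⟨h3, h4⟩
      · exact mem_erase.2 ⟨huvne, hvS⟩
      · exact mem_erase.2 ⟨h3, h.hN w hwS hwT2 h4⟩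
    · intro w hw hwT hz
      have hwS : w ∈ S := mem_of_mem_erase hw
      have hwT2 : w ∉ T := fun hh => hwT (mem_insert_of_mem hh)
      rcases of_mem_image_cm hz with ⟨rfl, h4⟩ | ⟨h3, h4⟩
      · exact hwT (mem_insert_self _ _)
      · exact h.hl w hwS hwT2 h4
    · have h3 : y ∉ (N x).image (cm u v) := by
        intro hz
        rcases of_mem_image_cm hz with ⟨h5, _⟩ | ⟨_, h4⟩
        · exact hvy h5.symm
        · exact h.exy h4
      rw [erase_eq_of_notMem h3, card_image_cm hnx, h.ex]
    · have h3 : x ∉ (N y).image (cm u v) := by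
        intro hz
        rcases of_mem_image_cm hz with ⟨h5, _⟩ | ⟨_, h4⟩
        · exact hvx h5.symm
        · exact h.eyx h4
      rw [erase_eq_of_notMem h3, card_image_cm hny, h.ey]
    · intro w hw hwT hwx hwy
      have hwS : w ∈ S := mem_of_mem_erase hw
      have hwT2 : w ∉ T := fun hh => hwT (mem_insert_of_mem hh)
      by_cases hb : u ∈ N w ∧ v ∈ N w
      · right
        rw [if_pos hb]
        have h5 := card_le_image_cm (u := u) (v := v) (N w)
        have h6 : 3 ≤ (N w).card := by
          rcases h.hw w hwS hwT2 hwx hwy with h3 | ⟨h3, h4, h7⟩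
          · exact h3
          · by_contra hlt
            have hsub : ({u, v, own w} : Finset α) ⊆ N w := by
              intro z hz
              simp only [mem_insert, mem_singleton] at hz
              rcases hz with rfl | rfl | rfl
              · exact hb.1
              · exact hb.2
              · exact h4
            have h8 := card_le_card hsub
            have h9 : ({u, v, own w} : Finset α).card = 3 := by
              rw [card_eq_three]
              exact ⟨u, v, own w, huvne.symm, fun e => huT (e ▸ h7), fun e => hvT (e ▸ h7), rfl⟩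
            omega
        exact ⟨by omega, mem_image_cm_self hb.1, mem_insert_self _ _⟩
      · rw [if_neg hb, card_image_cm hb]
        rcases h.hw w hwS hwT2 hwx hwy with h3 | ⟨h3, h4, h5⟩
        · exact Or.inl h3
        · refine Or.inr ⟨h3, mem_image_cm_of_ne h4 ?_, mem_insert_of_mem h5⟩
          intro e
          exact huT (e ▸ h5)
    · intro w hw hwT hwx hwy hc w' hw' hwT' hwx' hwy' hc' ho
      have hwS : w ∈ S := mem_of_mem_erase hw
      have hwS' : w' ∈ S := mem_of_mem_erase hw'
      have hwT2 : w ∉ T := fun hh => hwT (mem_insert_of_mem hh)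
      have hwT2' : w' ∉ T := fun hh => hwT' (mem_insert_of_mem hh)
      by_cases hb : u ∈ N w ∧ v ∈ N w
      · by_cases hb' : u ∈ N w' ∧ v ∈ N w'
        · exact hun w hwS hwT2 hb w' hwS' hwT2' hb'
        · exfalso
          rw [if_pos hb, if_neg hb'] at ho
          rw [card_image_cm hb'] at hc'
          rcases h.hw w' hwS' hwT2' hwx' hwy' with h3 | ⟨_, _, h5⟩
          · omega
          · exact hvT (ho ▸ h5)
      · by_cases hb' : u ∈ N w' ∧ v ∈ N w'
        · exfalso
          rw [if_neg hb, if_pos hb'] at ho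
          rw [card_image_cm hb] at hc
          rcases h.hw w hwS hwT2 hwx hwy with h3 | ⟨_, _, h5⟩
          · omega
          · exact hvT (ho ▸ h5)
        · rw [if_neg hb, if_neg hb'] at ho
          rw [card_image_cm hb] at hc
          rw [card_image_cm hb'] at hc'
          exact h.hinj w hwS hwT2 hwx hwy hc w' hwS' hwT2' hwx' hwy' hc' ho
  have hs := h.ih _ _ _ _ _ _ (measure_erase huS (subset_insert v T)) hg
  obtain ⟨P, Q, a1, a2, a3, a4, a5, a6, a7, _, _⟩ :=
    lift_sol (T := T) huS huv (fun z hz => by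
      rw [mem_insert] at hz
      rcases hz with rfl | hz
      · exact Or.inr ⟨rfl, hvu⟩
      · exact Or.inl hz) hs
  exact h.nosol ⟨P, Q, a1, a2, a3, a4, a5, a6, a7⟩

/-- contraction of an arc into the root `x` -/
lemma Crit.claimD (h : Crit S T x y N own) {u : α} (huS : u ∈ S) (huT : u ∉ T)
    (huy : u ≠ y) (hux : x ∈ N u) (hyu : u ∉ N y) :
    ∃ w ∈ S, w ∉ T ∧ w ≠ x ∧ w ≠ y ∧ u ∈ N w ∧ x ∈ N w := by
  by_contra hcon
  push Not at hcon
  have huxne : x ≠ u := fun e => h.hl u huS huT (e ▸ hux)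
  have hno : ∀ w ∈ S, w ∉ T → ¬ (u ∈ N w ∧ x ∈ N w) := by
    intro w h3 h4 h5
    by_cases h6 : w = x
    · subst h6
      exact h.hl w h3 h4 h5.2
    · by_cases h7 : w = y
      · subst h7
        exact h.eyx h5.2
      · exact hcon w h3 h4 h6 h7 h5.1 h5.2
  have hxu : u ∉ N x := fun hh => h.no2x hh huT hux
  have hg : Good (S.erase u) T x y (fun w => (N w).image (cm u x)) own := by
    refine ⟨?_, ?_, ?_, h.hxT, h.hyT, h.hxy, ?_, ?_, ?_, ?_, ?_, ?_⟩
    · intro z hz
      exact mem_erase.2 ⟨fun e => huT (e ▸ hz), h.hT hz⟩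
    · exact mem_erase.2 ⟨huxne, h.hx⟩
    · exact mem_erase.2 ⟨huy.symm, h.hy⟩
    · intro w hw hwT z hz
      have hwS : w ∈ S := mem_of_mem_erase hw
      rcases of_mem_image_cm hz with ⟨rfl, _⟩ | ⟨h3, h4⟩
      · exact mem_erase.2 ⟨huxne, h.hx⟩
      · exact mem_erase.2 ⟨h3, h.hN w hwS hwT h4⟩
    · intro w hw hwT hz
      have hwS : w ∈ S := mem_of_mem_erase hw
      rcases of_mem_image_cm hz with ⟨rfl, h4⟩ | ⟨h3, h4⟩
      · exact hxu h4
      · exact h.hl w hwS hwT h4
    · have h3 : y ∉ (N x).image (cm u x) := by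
        intro hz
        rcases of_mem_image_cm hz with ⟨h5, _⟩ | ⟨_, h4⟩
        · exact h.hxy h5.symm
        · exact h.exy h4
      rw [erase_eq_of_notMem h3, card_image_cm (hno x h.hx h.hxT), h.ex]
    · have h3 : x ∉ (N y).image (cm u x) := by
        intro hz
        rcases of_mem_image_cm hz with ⟨_, h5⟩ | ⟨_, h4⟩
        · exact hyu h5
        · exact h.eyx h4
      rw [erase_eq_of_notMem h3, card_image_cm (hno y h.hy h.hyT), h.ey]
    · intro w hw hwT hwx hwy
      have hwS : w ∈ S := mem_of_mem_erase hw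
      rw [card_image_cm (hno w hwS hwT)]
      rcases h.hw w hwS hwT hwx hwy with h3 | ⟨h3, h4, h5⟩
      · exact Or.inl h3
      · refine Or.inr ⟨h3, mem_image_cm_of_ne h4 ?_, h5⟩
        intro e
        exact huT (e ▸ h5)
    · intro w hw hwT hwx hwy hc w' hw' hwT' hwx' hwy' hc' ho
      have hwS : w ∈ S := mem_of_mem_erase hw
      have hwS' : w' ∈ S := mem_of_mem_erase hw'
      rw [card_image_cm (hno w hwS hwT)] at hc
      rw [card_image_cm (hno w' hwS' hwT')] at hc'
      exact h.hinj w hwS hwT hwx hwy hc w' hwS' hwT' hwx' hwy' hc' ho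
  have hs := h.ih _ _ _ _ _ _ (measure_erase huS subset_rfl) hg
  obtain ⟨P, Q, a1, a2, a3, a4, a5, a6, a7, _, _⟩ :=
    lift_sol (T := T) huS hux (fun z hz => Or.inl hz) hs
  exact h.nosol ⟨P, Q, a1, a2, a3, a4, a5, a6, a7⟩

/-- contraction of an arc leaving the root `x` -/
lemma Crit.claimE (h : Crit S T x y N own) {v : α} (hvT : v ∉ T)
    (hxv : v ∈ N x) (hyv : v ∉ N y) :
    ∃ w ∈ S, w ∉ T ∧ w ≠ x ∧ w ≠ y ∧ x ∈ N w ∧ v ∈ N w := by
  by_contra hcon
  push Not at hcon
  have hvS : v ∈ S := h.hN x h.hx h.hxT hxv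
  have hvx : v ≠ x := fun e => h.hl x h.hx h.hxT (e ▸ hxv)
  have hvy : v ≠ y := fun e => h.exy (e ▸ hxv)
  have hno : ∀ w ∈ S, w ∉ T → ¬ (x ∈ N w ∧ v ∈ N w) := by
    intro w h3 h4 h5
    by_cases h6 : w = x
    · subst h6
      exact h.hl w h3 h4 h5.1
    · by_cases h7 : w = y
      · subst h7
        exact h.eyx h5.1
      · exact hcon w h3 h4 h6 h7 h5.1 h5.2
  have hvx2 : x ∉ N v := h.no2x hxv hvT
  by_cases hbig : 2 ≤ ((N v).erase y).card
  · have hg : Good (S.erase x) T v y (fun w => (N w).image (cm x v)) own := by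
      refine ⟨?_, ?_, ?_, hvT, h.hyT, hvy, ?_, ?_, ?_, ?_, ?_, ?_⟩
      · intro z hz
        exact mem_erase.2 ⟨fun e => h.hxT (e ▸ hz), h.hT hz⟩
      · exact mem_erase.2 ⟨hvx, hvS⟩
      · exact mem_erase.2 ⟨h.hxy.symm, h.hy⟩
      · intro w hw hwT z hz
        have hwS : w ∈ S := mem_of_mem_erase hw
        rcases of_mem_image_cm hz with ⟨rfl, _⟩ | ⟨h3, h4⟩
        · exact mem_erase.2 ⟨hvx, hvS⟩
        · exact mem_erase.2 ⟨h3, h.hN w hwS hwT h4⟩
      · intro w hw hwT hz
        have hwS : w ∈ S := mem_of_mem_erase hw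
        rcases of_mem_image_cm hz with ⟨rfl, h4⟩ | ⟨h3, h4⟩
        · exact hvx2 h4
        · exact h.hl w hwS hwT h4
      · refine hbig.trans (card_le_card ?_)
        intro z hz
        rw [mem_erase] at hz ⊢
        exact ⟨hz.1, mem_image_cm_of_ne hz.2 (fun e => hvx2 (e ▸ hz.2))⟩
      · have h3 : v ∉ (N y).image (cm x v) := by
          intro hz
          rcases of_mem_image_cm hz with ⟨_, h5⟩ | ⟨_, h4⟩
          · exact h.eyx h5
          · exact hyv h4
        rw [erase_eq_of_notMem h3, card_image_cm (hno y h.hy h.hyT), h.ey]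
      · intro w hw hwT hwv hwy
        have hwS : w ∈ S := mem_of_mem_erase hw
        have hwx : w ≠ x := ne_of_mem_erase hw
        rw [card_image_cm (hno w hwS hwT)]
        rcases h.hw w hwS hwT hwx hwy with h3 | ⟨h3, h4, h5⟩
        · exact Or.inl h3
        · refine Or.inr ⟨h3, mem_image_cm_of_ne h4 ?_, h5⟩
          intro e
          exact h.hxT (e ▸ h5)
      · intro w hw hwT hwx hwy hc w' hw' hwT' hwx' hwy' hc' ho
        have hwS : w ∈ S := mem_of_mem_erase hw
        have hwS' : w' ∈ S := mem_of_mem_erase hw'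
        rw [card_image_cm (hno w hwS hwT)] at hc
        rw [card_image_cm (hno w' hwS' hwT')] at hc'
        exact h.hinj w hwS hwT (ne_of_mem_erase hw) hwy hc w' hwS' hwT' (ne_of_mem_erase hw')
          hwy' hc' ho
    have hs := h.ih _ _ _ _ _ _ (measure_erase h.hx subset_rfl) hg
    obtain ⟨P, Q, a1, a2, a3, a4, a5, a6, a7, a8, _⟩ :=
      lift_sol (T := T) h.hx hxv (fun z hz => Or.inl hz) hs
    exact h.nosol ⟨P, Q, a1, a2, a3, a8 a4, a5, a6, a7⟩
  · -- `v` is deficient and points to `y`
    have hlt : (N v).card < 3 := by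
      have := pred_card_le_card_erase (s := N v) (a := y)
      omega
    rcases h.hw v hvS hvT hvx hvy with h3 | ⟨h3, h4, h5⟩
    · omega
    have hoS : own v ∈ S := h.hT h5
    refine h.direct {x, v, own v} ?_ (by simp) ?_ ?_ ?_
    · intro z hz
      simp only [mem_insert, mem_singleton] at hz
      rcases hz with rfl | rfl | rfl
      · exact h.hx
      · exact hvS
      · exact hoS
    · simp only [mem_insert, mem_singleton, not_or]
      exact ⟨h.hxy.symm, hvy.symm, fun e => h.hyT (e ▸ h5)⟩
    · intro z hz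
      simp only [mem_insert, mem_singleton] at hz
      rcases hz with rfl | rfl | rfl
      · exact Or.inr ⟨v, by simp, hxv⟩
      · exact Or.inr ⟨own z, by simp, h4⟩
      · exact Or.inl h5
    · intro z hz hzT hzP hsub
      simp only [mem_insert, mem_singleton, not_or] at hzP
      by_cases hzy : z = y
      · subst hzy
        have h6 : N z ⊆ {own v} := by
          intro q hq
          have := hsub hq
          simp only [mem_insert, mem_singleton] at this
          rcases this with e | e | e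
          · exact absurd (e ▸ hq) h.eyx
          · exact absurd (e ▸ hq) hyv
          · simp [e]
        have := card_le_card h6
        rw [h.ey] at this
        simp at this
      · have hsub' : N z ⊆ {own v, x, v} := by
          intro q hq
          have := hsub hq
          simp only [mem_insert, mem_singleton] at this ⊢
          tauto
        have h7 := card_sub3 hsub' (hno z hz hzT)
        rcases h.hw z hz hzT hzP.1 hzy with h8 | ⟨h8, h9, h10⟩
        · omega
        · have := hsub h9
          simp only [mem_insert, mem_singleton] at this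
          rcases this with e | e | e
          · exact h.hxT (e ▸ h10)
          · exact hvT (e ▸ h10)
          · exact hzP.2.1 (h.hinj z hz hzT hzP.1 hzy (by omega) v hvS hvT hvx hvy hlt e)

/-- the number of out-neighbours outside the roots -/
lemma Crit.count (h : Crit S T x y N own) :
    (((S \ T).filter (fun w => w ≠ x ∧ w ≠ y ∧ (x ∈ N w ∨ y ∈ N w)))).card ≤ 2 := by
  classical
  set U : Finset α := (S.erase x).erase y with hU
  have hUmem : ∀ z, z ∈ U ↔ z ∈ S ∧ z ≠ x ∧ z ≠ y := by
    intro z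
    simp only [hU, mem_erase]
    tauto
  set W : Finset α := (S \ T).filter (fun w => w ≠ x ∧ w ≠ y) with hW
  have hWmem : ∀ z, z ∈ W ↔ z ∈ S ∧ z ∉ T ∧ z ≠ x ∧ z ≠ y := by
    intro z
    simp only [hW, mem_filter, mem_sdiff]
    tauto
  let d : α → ℕ := fun w => (N w ∩ U).card
  -- pairwise inequality
  have hpair : ∀ p ∈ U ×ˢ U,
      ((if p.1 ∈ W ∧ p.2 ∈ N p.1 then 1 else 0) + (if p.2 ∈ W ∧ p.1 ∈ N p.2 then 1 else 0) : ℕ) ≤
      ∑ w ∈ S \ T, (if p.1 ∈ N w ∧ p.2 ∈ N w ∧ p.1 ≠ p.2 then 1 else 0) := by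
    rintro ⟨u, v⟩ hp
    rw [mem_product] at hp
    simp only at hp ⊢
    have hu := (hUmem u).1 hp.1
    have hv := (hUmem v).1 hp.2
    rw [← card_filter]
    by_cases h1 : u ∈ W ∧ v ∈ N u
    · have huW := (hWmem u).1 h1.1
      have hne : u ≠ v := fun e => h.hl u huW.1 huW.2.1 (e ▸ h1.2)
      by_cases h2 : v ∈ W ∧ u ∈ N v
      · have hvW := (hWmem v).1 h2.1
        rw [if_pos h1, if_pos h2]
        have := h.claimB huW.1 huW.2.1 huW.2.2.1 huW.2.2.2 h1.2 hvW.2.1 hvW.2.2.1 hvW.2.2.2 h2.2
        refine this.trans (card_le_card ?_)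
        intro w hw
        rw [mem_filter] at hw ⊢
        exact ⟨hw.1, hw.2.1, hw.2.2, hne⟩
      · rw [if_pos h1, if_neg h2]
        have h3 : v ∈ T ∨ u ∉ N v := by
          by_contra hcon
          push Not at hcon
          exact h2 ⟨(hWmem v).2 ⟨hv.1, hcon.1, hv.2.1, hv.2.2⟩, hcon.2⟩
        obtain ⟨w, hw1, hw2, hw3, hw4⟩ :=
          h.claimA huW.1 huW.2.1 huW.2.2.1 huW.2.2.2 h1.2 hv.2.1 hv.2.2 h3
        have : 0 < ((S \ T).filter (fun w => u ∈ N w ∧ v ∈ N w ∧ u ≠ v)).card := by
          rw [card_pos]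
          exact ⟨w, by simp [hw1, hw2, hw3, hw4, hne]⟩
        omega
    · by_cases h2 : v ∈ W ∧ u ∈ N v
      · have hvW := (hWmem v).1 h2.1
        have hne : u ≠ v := fun e => h.hl v hvW.1 hvW.2.1 (by simpa [e] using h2.2)
        rw [if_neg h1, if_pos h2]
        have h3 : u ∈ T ∨ v ∉ N u := by
          by_contra hcon
          push Not at hcon
          exact h1 ⟨(hWmem u).2 ⟨hu.1, hcon.1, hu.2.1, hu.2.2⟩, hcon.2⟩
        obtain ⟨w, hw1, hw2, hw3, hw4⟩ :=
          h.claimA hvW.1 hvW.2.1 hvW.2.2.1 hvW.2.2.2 h2.2 hu.2.1 hu.2.2 h3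
        have : 0 < ((S \ T).filter (fun w => u ∈ N w ∧ v ∈ N w ∧ u ≠ v)).card := by
          rw [card_pos]
          exact ⟨w, by simp [hw1, hw2, hw3, hw4, hne]⟩
        omega
      · rw [if_neg h1, if_neg h2]
        omega
  have hsum := sum_le_sum hpair
  rw [sum_add_distrib, sum_comm] at hsum
  -- left side
  have hL1 : ∑ p ∈ U ×ˢ U, (if p.1 ∈ W ∧ p.2 ∈ N p.1 then 1 else 0 : ℕ) = ∑ w ∈ W, d w := by
    rw [sum_product]
    have : ∀ u ∈ U, ∑ v ∈ U, (if u ∈ W ∧ v ∈ N u then 1 else 0 : ℕ) = if u ∈ W then d u else 0 := by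
      intro u _
      by_cases hu : u ∈ W
      · simp only [hu, true_and, if_true]
        rw [← card_filter]
        simp only [d]
        congr 1
        ext z
        simp only [mem_filter, mem_inter]
        tauto
      · simp [hu]
    rw [sum_congr rfl this, ← sum_filter]
    apply sum_congr _ (fun _ _ => rfl)
    ext z
    rw [mem_filter, hUmem, hWmem]
    tauto
  have hL2 : ∑ p ∈ U ×ˢ U, (if p.2 ∈ W ∧ p.1 ∈ N p.2 then 1 else 0 : ℕ) = ∑ w ∈ W, d w := by
    rw [← hL1, sum_product, sum_product, sum_comm]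
  have hR : ∀ w ∈ S \ T, ∑ p ∈ U ×ˢ U,
      (if p.1 ∈ N w ∧ p.2 ∈ N w ∧ p.1 ≠ p.2 then 1 else 0 : ℕ) = d w * d w - d w := by
    intro w _
    rw [← card_filter]
    have : ((U ×ˢ U).filter (fun p => p.1 ∈ N w ∧ p.2 ∈ N w ∧ p.1 ≠ p.2)) =
        (N w ∩ U).offDiag := by
      ext ⟨a, b⟩
      simp only [mem_filter, mem_product, mem_offDiag, mem_inter]
      tauto
    rw [this, offDiag_card]
  rw [hL1, hL2, sum_congr rfl hR] at hsum
  -- split the sum over S \ T
  have hsplit : ∑ w ∈ S \ T, (d w * d w - d w) =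
      (d x * d x - d x) + ((d y * d y - d y) + ∑ w ∈ W, (d w * d w - d w)) := by
    have h1 : S \ T = insert x (insert y W) := by
      ext z
      rw [mem_sdiff, mem_insert, mem_insert, hWmem]
      constructor
      · rintro ⟨a, b⟩
        by_cases e1 : z = x
        · exact Or.inl e1
        · by_cases e2 : z = y
          · exact Or.inr (Or.inl e2)
          · exact Or.inr (Or.inr ⟨a, b, e1, e2⟩)
      · rintro (rfl | rfl | hz)
        · exact ⟨h.hx, h.hxT⟩
        · exact ⟨h.hy, h.hyT⟩
        · exact ⟨hz.1, hz.2.1⟩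
    rw [h1, sum_insert, sum_insert]
    · intro hh
      exact ((hWmem y).1 hh).2.2.2 rfl
    · intro hh
      rw [mem_insert] at hh
      rcases hh with hh | hh
      · exact h.hxy hh
      · exact ((hWmem x).1 hh).2.2.1 rfl
  rw [hsplit] at hsum
  have hdx : d x ≤ 2 := by
    have := card_le_card (inter_subset_left (s₁ := N x) (s₂ := U))
    rw [h.ex] at this
    exact this
  have hdy : d y ≤ 2 := by
    have := card_le_card (inter_subset_left (s₁ := N y) (s₂ := U))
    rw [h.ey] at this
    exact this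
  have hdx2 : d x * d x - d x ≤ 2 := by
    interval_cases (d x) <;> simp
  have hdy2 : d y * d y - d y ≤ 2 := by
    interval_cases (d y) <;> simp
  -- local inequality
  have hloc : ∀ w ∈ W, (d w * d w - d w) + (if x ∈ N w ∨ y ∈ N w then 2 else 0) ≤ d w + d w := by
    intro w hw
    have hw' := (hWmem w).1 hw
    have hc3 := h.ew w hw'.1 hw'.2.1 hw'.2.2.1 hw'.2.2.2
    have hd3 : d w ≤ 3 := (card_le_card (inter_subset_left (s₁ := N w) (s₂ := U))).trans hc3
    by_cases hb : x ∈ N w ∨ y ∈ N w
    · rw [if_pos hb]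
      -- d w is the size minus one
      have h1 : d w + 1 = (N w).card := by
        rcases hb with hb | hb
        · have hny : y ∉ N w := fun hh =>
            h.noboth hw'.1 hw'.2.1 hw'.2.2.1 hw'.2.2.2 hb hh
          have : N w ∩ U = (N w).erase x := by
            ext z
            rw [mem_inter, hUmem, mem_erase]
            constructor
            · rintro ⟨a, b, c, e⟩
              exact ⟨c, a⟩
            · rintro ⟨a, b⟩
              exact ⟨b, h.hN w hw'.1 hw'.2.1 b, a, fun e => hny (e ▸ b)⟩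
          simp only [d]
          rw [this, card_erase_of_mem hb]
          have : 0 < (N w).card := card_pos.2 ⟨x, hb⟩
          omega
        · have hnx : x ∉ N w := fun hh =>
            h.noboth hw'.1 hw'.2.1 hw'.2.2.1 hw'.2.2.2 hh hb
          have : N w ∩ U = (N w).erase y := by
            ext z
            rw [mem_inter, hUmem, mem_erase]
            constructor
            · rintro ⟨a, b, c, e⟩
              exact ⟨e, a⟩
            · rintro ⟨a, b⟩
              exact ⟨b, h.hN w hw'.1 hw'.2.1 b, fun e => hnx (e ▸ b), a⟩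
          simp only [d]
          rw [this, card_erase_of_mem hb]
          have : 0 < (N w).card := card_pos.2 ⟨y, hb⟩
          omega
      have h2 : 2 ≤ (N w).card := by
        rcases h.hw w hw'.1 hw'.2.1 hw'.2.2.1 hw'.2.2.2 with h3 | h3
        · omega
        · exact h3.1
      have h3 : d w = 1 ∨ d w = 2 := by omega
      rcases h3 with h3 | h3 <;> simp [h3]
    · rw [if_neg hb]
      interval_cases (d w) <;> simp
  have hsum2 := sum_le_sum hloc
  rw [sum_add_distrib, sum_add_distrib] at hsum2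
  have hfin : ∑ w ∈ W, (if x ∈ N w ∨ y ∈ N w then 2 else 0 : ℕ) =
      2 * (((S \ T).filter (fun w => w ≠ x ∧ w ≠ y ∧ (x ∈ N w ∨ y ∈ N w)))).card := by
    rw [← sum_filter, sum_const, smul_eq_mul, mul_comm]
    congr 2
    ext z
    simp only [hW, mem_filter]
    tauto
  rw [hfin] at hsum2
  omega

/-- the root `x` has an in-neighbour -/
lemma Crit.inA (h : Crit S T x y N own) :
    ∃ w ∈ S, w ∉ T ∧ w ≠ x ∧ w ≠ y ∧ x ∈ N w := by
  by_contra hcon
  push Not at hcon
  have hnT : ∀ a ∈ N x, a ∉ T := by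
    intro a ha haT
    have haS : a ∈ S := h.hT haT
    refine h.direct {x, a} ?_ (by simp) ?_ ?_ ?_
    · intro z hz
      simp only [mem_insert, mem_singleton] at hz
      rcases hz with rfl | rfl
      · exact h.hx
      · exact haS
    · simp only [mem_insert, mem_singleton, not_or]
      exact ⟨h.hxy.symm, fun e => h.hyT (e ▸ haT)⟩
    · intro z hz
      simp only [mem_insert, mem_singleton] at hz
      rcases hz with rfl | rfl
      · exact Or.inr ⟨a, by simp, ha⟩
      · exact Or.inl haT
    · intro v hv hvT hvP hsub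
      simp only [mem_insert, mem_singleton, not_or] at hvP
      have hxv : x ∉ N v := by
        by_cases hvy : v = y
        · subst hvy
          exact h.eyx
        · exact hcon v hv hvT hvP.1 hvy
      have h1 : N v ⊆ {a} := by
        intro z hz
        have := hsub hz
        simp only [mem_insert, mem_singleton] at this
        rcases this with rfl | rfl
        · exact absurd hz hxv
        · simp
      have h2 := card_le_card h1
      rw [card_singleton] at h2
      by_cases hvy : v = y
      · subst hvy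
        rw [h.ey] at h2
        omega
      · rcases h.hw v hv hvT hvP.1 hvy with h3 | ⟨h3, _⟩ <;> omega
  have hsub : N x ⊆ N y := by
    intro a ha
    by_contra hay
    obtain ⟨w, h1, h2, h3, h4, h5, _⟩ := h.claimE (hnT a ha) ha hay
    exact hcon w h1 h2 h3 h4 h5
  have hNN : N x = N y := eq_of_subset_of_card_le hsub (by rw [h.ex, h.ey])
  obtain ⟨a, a', haa', hNx⟩ := card_eq_two.1 h.ex
  have key : ∀ b b' : α, b ∈ N x → b' ∈ N x → b ≠ b' → 3 ≤ (N b).card := by
    intro b b' hb hb' hne
    by_contra hlt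
    have hbT := hnT b hb
    have hbT' := hnT b' hb'
    have hbS : b ∈ S := h.hN x h.hx h.hxT hb
    have hbx : b ≠ x := fun e => h.hl x h.hx h.hxT (e ▸ hb)
    have hbx' : b' ≠ x := fun e => h.hl x h.hx h.hxT (e ▸ hb')
    have hby : b ≠ y := fun e => h.exy (e ▸ hb)
    rcases h.hw b hbS hbT hbx hby with h3 | ⟨h3, h4, h5⟩
    · exact hlt h3
    refine h.direct {x, b, own b} ?_ (by simp) ?_ ?_ ?_
    · intro z hz
      simp only [mem_insert, mem_singleton] at hz
      rcases hz with rfl | rfl | rfl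
      · exact h.hx
      · exact hbS
      · exact h.hT h5
    · simp only [mem_insert, mem_singleton, not_or]
      exact ⟨h.hxy.symm, hby.symm, fun e => h.hyT (e ▸ h5)⟩
    · intro z hz
      simp only [mem_insert, mem_singleton] at hz
      rcases hz with rfl | rfl | rfl
      · exact Or.inr ⟨b, by simp, hb⟩
      · exact Or.inr ⟨own z, by simp, h4⟩
      · exact Or.inl h5
    · intro z hz hzT hzP hsub2
      simp only [mem_insert, mem_singleton, not_or] at hzP
      by_cases hzy : z = y
      · subst hzy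
        have hbz : b' ∈ N z := by rw [← hNN]; exact hb'
        have := hsub2 hbz
        simp only [mem_insert, mem_singleton] at this
        rcases this with e | e | e
        · exact hbx' e
        · exact hne e.symm
        · exact hbT' (e ▸ h5)
      · have hxz := hcon z hz hzT hzP.1 hzy
        have h6 : N z ⊆ {b, own b} := by
          intro q hq
          have := hsub2 hq
          simp only [mem_insert, mem_singleton] at this ⊢
          rcases this with e | e | e
          · exact absurd (e ▸ hq) hxz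
          · exact Or.inl e
          · exact Or.inr e
        have h7 := (card_le_card h6).trans card_le_two
        rcases h.hw z hz hzT hzP.1 hzy with h8 | ⟨h8, h9, h10⟩
        · omega
        · have := h6 h9
          simp only [mem_insert, mem_singleton] at this
          rcases this with e | e
          · exact hbT (e ▸ h10)
          · exact hzP.2.1 (h.hinj z hz hzT hzP.1 hzy (by omega) b hbS hbT hbx hby (by omega) e)
  have ha : a ∈ N x := by rw [hNx]; simp
  have ha' : a' ∈ N x := by rw [hNx]; simp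
  have haT := hnT a ha
  have haT' := hnT a' ha'
  have hay : a ≠ y := fun e => h.exy (e ▸ ha)
  have hay' : a' ≠ y := fun e => h.exy (e ▸ ha')
  have hax : a ≠ x := fun e => h.hl x h.hx h.hxT (e ▸ ha)
  have hax' : a' ≠ x := fun e => h.hl x h.hx h.hxT (e ▸ ha')
  have haS : a ∈ S := h.hN x h.hx h.hxT ha
  have haS' : a' ∈ S := h.hN x h.hx h.hxT ha'
  have hc := key a a' ha ha' haa'
  have hc' := key a' a ha' ha haa'.symm
  have hg : Good (S.erase x) (insert y T) a a' N own := by
    refine ⟨?_, mem_erase.2 ⟨hax, haS⟩, mem_erase.2 ⟨hax', haS'⟩, by simp [haT, hay],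
      by simp [haT', hay'], haa', ?_, ?_, ?_, ?_, ?_, ?_⟩
    · intro z hz
      rw [mem_insert] at hz
      rcases hz with rfl | hz
      · exact mem_erase.2 ⟨h.hxy.symm, h.hy⟩
      · exact mem_erase.2 ⟨fun e => h.hxT (e ▸ hz), h.hT hz⟩
    · intro v hv hvT z hz
      rw [mem_insert, not_or] at hvT
      rw [mem_erase] at hv
      refine mem_erase.2 ⟨?_, h.hN v hv.2 hvT.2 hz⟩
      intro e
      exact hcon v hv.2 hvT.2 hv.1 hvT.1 (e ▸ hz)
    · intro v hv hvT
      rw [mem_insert, not_or] at hvT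
      exact h.hl v (mem_of_mem_erase hv) hvT.2
    · have := pred_card_le_card_erase (s := N a) (a := a')
      omega
    · have := pred_card_le_card_erase (s := N a') (a := a)
      omega
    · intro w hw hwT _ _
      rw [mem_insert, not_or] at hwT
      rw [mem_erase] at hw
      rcases h.hw w hw.2 hwT.2 hw.1 hwT.1 with h3 | ⟨h3, h4, h5⟩
      · exact Or.inl h3
      · exact Or.inr ⟨h3, h4, mem_insert_of_mem h5⟩
    · intro w hw hwT _ _ hcw w' hw' hwT' _ _ hcw' ho
      rw [mem_insert, not_or] at hwT hwT'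
      rw [mem_erase] at hw hw'
      exact h.hinj w hw.2 hwT.2 hw.1 hwT.1 hcw w' hw'.2 hwT'.2 hw'.1 hwT'.1 hcw' ho
  obtain ⟨P, Q, hP, hQ, hd, hr1, hr2, ok1, ok2⟩ :=
    h.ih _ _ _ _ _ _ (measure_erase h.hx (subset_insert y T)) hg
  have hxP : x ∉ P := fun hh => by simpa using hP hh
  have hxQ : x ∉ Q := fun hh => by simpa using hQ hh
  have hPS : P ⊆ S := hP.trans (erase_subset _ _)
  have hQS : Q ⊆ S := hQ.trans (erase_subset _ _)
  by_cases hyP : y ∈ P
  · have hyQ : y ∉ Q := disjoint_left.1 hd hyP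
    apply h.nosol
    refine ⟨insert x Q, P, insert_subset h.hx hQS, hPS, ?_, mem_insert_self _ _, hyP, ?_, ?_⟩
    · rw [disjoint_insert_left]
      exact ⟨hxP, hd.symm⟩
    · intro z hz
      rw [mem_insert] at hz
      rcases hz with rfl | hz
      · exact Or.inr ⟨a', mem_insert_of_mem hr2, ha'⟩
      · rcases ok2 z hz with h3 | ⟨w, h3, h4⟩
        · rw [mem_insert] at h3
          rcases h3 with rfl | h3
          · exact absurd hz hyQ
          · exact Or.inl h3
        · exact Or.inr ⟨w, mem_insert_of_mem h3, h4⟩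
    · intro z hz
      rcases ok1 z hz with h3 | h3
      · rw [mem_insert] at h3
        rcases h3 with rfl | h3
        · exact Or.inr ⟨a, hr1, hNN ▸ ha⟩
        · exact Or.inl h3
      · exact Or.inr h3
  · apply h.nosol
    refine ⟨insert x P, insert y Q, insert_subset h.hx hPS, insert_subset h.hy hQS, ?_,
      mem_insert_self _ _, mem_insert_self _ _, ?_, ?_⟩
    · rw [disjoint_insert_left, disjoint_insert_right, mem_insert, not_or]
      exact ⟨⟨h.hxy, hxQ⟩, hyP, hd⟩
    · intro z hz
      rw [mem_insert] at hz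
      rcases hz with rfl | hz
      · exact Or.inr ⟨a, mem_insert_of_mem hr1, ha⟩
      · rcases ok1 z hz with h3 | ⟨w, h3, h4⟩
        · rw [mem_insert] at h3
          rcases h3 with rfl | h3
          · exact absurd hz hyP
          · exact Or.inl h3
        · exact Or.inr ⟨w, mem_insert_of_mem h3, h4⟩
    · intro z hz
      by_cases hzy : z = y
      · subst hzy
        exact Or.inr ⟨a', mem_insert_of_mem hr2, hNN ▸ ha'⟩
      · rw [mem_insert] at hz
        rcases hz with hz | hz
        · exact absurd hz hzy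
        rcases ok2 z hz with h3 | ⟨w, h3, h4⟩
        · rw [mem_insert] at h3
          rcases h3 with h3 | h3
          · exact absurd h3 hzy
          · exact Or.inl h3
        · exact Or.inr ⟨w, mem_insert_of_mem h3, h4⟩

/-- there is no minimal unsolvable instance -/
lemma Crit.false (h : Crit S T x y N own) : False := by
  obtain ⟨u, huS, huT, hux, huy, hxu⟩ := h.inA
  obtain ⟨v, hvS, hvT, hvy, hvx, hyv⟩ := h.symm.inA
  have huv : u ≠ v := by
    intro e
    exact h.noboth huS huT hux huy hxu (e ▸ hyv)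
  have hcount := h.count
  have hall : ∀ w ∈ S, w ∉ T → w ≠ x → w ≠ y → (x ∈ N w ∨ y ∈ N w) → w = u ∨ w = v := by
    intro w h1 h2 h3 h4 h5
    by_contra hne
    push Not at hne
    have hsub : ({u, v, w} : Finset α) ⊆
        (S \ T).filter (fun w => w ≠ x ∧ w ≠ y ∧ (x ∈ N w ∨ y ∈ N w)) := by
      intro z hz
      simp only [mem_insert, mem_singleton] at hz
      rw [mem_filter, mem_sdiff]
      rcases hz with rfl | rfl | rfl
      · exact ⟨⟨huS, huT⟩, hux, huy, Or.inl hxu⟩
      · exact ⟨⟨hvS, hvT⟩, hvx, hvy, Or.inr hyv⟩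
      · exact ⟨⟨h1, h2⟩, h3, h4, h5⟩
    have h6 := card_le_card hsub
    have h7 : ({u, v, w} : Finset α).card = 3 :=
      card_eq_three.2 ⟨u, v, w, huv, hne.1.symm, hne.2.symm, rfl⟩
    omega
  have hA : ∀ w ∈ S, w ∉ T → w ≠ x → w ≠ y → x ∈ N w → w = u := by
    intro w h1 h2 h3 h4 h5
    rcases hall w h1 h2 h3 h4 (Or.inl h5) with e | e
    · exact e
    · exact absurd (e ▸ hyv) (fun hh => h.noboth h1 h2 h3 h4 h5 hh)
  have hB : ∀ w ∈ S, w ∉ T → w ≠ x → w ≠ y → y ∈ N w → w = v := by
    intro w h1 h2 h3 h4 h5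
    rcases hall w h1 h2 h3 h4 (Or.inr h5) with e | e
    · exact absurd (e ▸ hxu) (fun hh => h.noboth h1 h2 h3 h4 hh h5)
    · exact e
  have hyu : u ∈ N y := by
    by_contra hh
    obtain ⟨w, h1, h2, h3, h4, h5, h6⟩ := h.claimD huS huT huy hxu hh
    have := hA w h1 h2 h3 h4 h6
    subst this
    exact h.hl w h1 h2 h5
  have hxv : v ∈ N x := by
    by_contra hh
    obtain ⟨w, h1, h2, h3, h4, h5, h6⟩ := h.symm.claimD hvS hvT hvx hyv hh
    have := hB w h1 h2 h4 h3 h6
    subst this
    exact h.hl w h1 h2 h5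
  have hvu : u ∈ N v := by
    have hh : u ∉ N x := fun hh => h.no2x hh huT hxu
    obtain ⟨w, h1, h2, h3, h4, h5, h6⟩ := h.symm.claimE huT hyu hh
    have := hB w h1 h2 h4 h3 h5
    subst this
    exact h6
  refine h.direct {x, v, u} ?_ (by simp) ?_ ?_ ?_
  · intro z hz
    simp only [mem_insert, mem_singleton] at hz
    rcases hz with rfl | rfl | rfl
    · exact h.hx
    · exact hvS
    · exact huS
  · simp only [mem_insert, mem_singleton, not_or]
    exact ⟨h.hxy.symm, hvy.symm, huy.symm⟩
  · intro z hz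
    simp only [mem_insert, mem_singleton] at hz
    rcases hz with rfl | rfl | rfl
    · exact Or.inr ⟨v, by simp, hxv⟩
    · exact Or.inr ⟨u, by simp, hvu⟩
    · exact Or.inr ⟨x, by simp, hxu⟩
  · intro z hz hzT hzP hsub
    simp only [mem_insert, mem_singleton, not_or] at hzP
    by_cases hzy : z = y
    · subst hzy
      have hvz : v ∉ N z := fun hh => h.symm.no2x hh hvT hyv
      have h1 : N z ⊆ {u} := by
        intro q hq
        have := hsub hq
        simp only [mem_insert, mem_singleton] at this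
        rcases this with e | e | e
        · exact absurd (e ▸ hq) h.eyx
        · exact absurd (e ▸ hq) hvz
        · simp [e]
      have := card_le_card h1
      rw [h.ey] at this
      simp at this
    · have hxz : x ∉ N z := fun hh => hzP.2.2 (hA z hz hzT hzP.1 hzy hh)
      have h1 : N z ⊆ {v, u} := by
        intro q hq
        have := hsub hq
        simp only [mem_insert, mem_singleton] at this ⊢
        rcases this with e | e | e
        · exact absurd (e ▸ hq) hxz
        · exact Or.inl e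
        · exact Or.inr e
      have h2 := (card_le_card h1).trans card_le_two
      rcases h.hw z hz hzT hzP.1 hzy with h3 | ⟨_, h4, h5⟩
      · omega
      · have := h1 h4
        simp only [mem_insert, mem_singleton] at this
        rcases this with e | e
        · exact hvT (e ▸ h5)
        · exact huT (e ▸ h5)

/-- every instance is solvable -/
theorem Good.sol : ∀ (n : ℕ) (S T : Finset α) (x y : α) (N : α → Finset α) (own : α → α),
    S.card + (S \ T).card = n → Good S T x y N own → Sol S T x y N := by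
  intro n
  induction n using Nat.strong_induction_on with
  | _ n ih =>
    intro S T x y N own hn h
    by_contra hns
    obtain ⟨X, hX, hXc⟩ := exists_subset_card_eq h.hx2
    obtain ⟨Y, hY, hYc⟩ := exists_subset_card_eq h.hy2
    have hf : ∀ w, ∃ t ⊆ N w, (3 ≤ (N w).card → t.card = 3) ∧ ((N w).card < 3 → t = N w) := by
      intro w
      by_cases h3 : 3 ≤ (N w).card
      · obtain ⟨t, ht, htc⟩ := exists_subset_card_eq h3
        exact ⟨t, ht, fun _ => htc, fun hh => absurd h3 (by omega)⟩
      · exact ⟨N w, subset_rfl, fun hh => absurd hh h3, fun _ => rfl⟩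
    choose f hf1 hf2 hf3 using hf
    let M : α → Finset α := fun w => if w = x then X else if w = y then Y else f w
    have hMx : M x = X := by simp [M]
    have hMy : M y = Y := by simp [M, h.hxy.symm]
    have hMw : ∀ w, w ≠ x → w ≠ y → M w = f w := by
      intro w h1 h2
      simp [M, h1, h2]
    have hMsub : ∀ w, M w ⊆ N w := by
      intro w
      by_cases h1 : w = x
      · subst h1
        rw [hMx]
        exact hX.trans (erase_subset _ _)
      · by_cases h2 : w = y
        · subst h2
          rw [hMy]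
          exact hY.trans (erase_subset _ _)
        · rw [hMw w h1 h2]
          exact hf1 w
    have hyX : y ∉ X := fun hh => by simpa using hX hh
    have hxY : x ∉ Y := fun hh => by simpa using hY hh
    have hcardlt : ∀ w, w ≠ x → w ≠ y → (M w).card < 3 → (N w).card < 3 := by
      intro w h1 h2 h3
      by_contra h4
      rw [hMw w h1 h2, hf2 w (by omega)] at h3
      omega
    have hcrit : Crit S T x y M own := by
      refine ⟨⟨h.hT, h.hx, h.hy, h.hxT, h.hyT, h.hxy, ?_, ?_, ?_, ?_, ?_, ?_⟩, ?_, ?_, ?_, ?_,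
        ?_, ?_, ?_⟩
      · intro v hv hvT
        exact (hMsub v).trans (h.hN v hv hvT)
      · intro v hv hvT hh
        exact h.hl v hv hvT (hMsub v hh)
      · rw [hMx, erase_eq_of_notMem hyX, hXc]
      · rw [hMy, erase_eq_of_notMem hxY, hYc]
      · intro w hw hwT hwx hwy
        by_cases h3 : 3 ≤ (N w).card
        · left
          rw [hMw w hwx hwy, hf2 w h3]
        · right
          rw [hMw w hwx hwy, hf3 w (by omega)]
          rcases h.hw w hw hwT hwx hwy with h4 | h4
          · exact absurd h4 h3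
          · exact h4
      · intro w hw hwT hwx hwy hc w' hw' hwT' hwx' hwy' hc' ho
        exact h.hinj w hw hwT hwx hwy (hcardlt w hwx hwy hc) w' hw' hwT' hwx' hwy'
          (hcardlt w' hwx' hwy' hc') ho
      · rw [hMx, hXc]
      · rw [hMy, hYc]
      · rw [hMx]; exact hyX
      · rw [hMy]; exact hxY
      · intro w hw hwT hwx hwy
        rw [hMw w hwx hwy]
        by_cases h3 : 3 ≤ (N w).card
        · rw [hf2 w h3]
        · rw [hf3 w (by omega)]
          omega
      · rintro ⟨P, Q, a1, a2, a3, a4, a5, a6, a7⟩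
        apply hns
        refine ⟨P, Q, a1, a2, a3, a4, a5, ?_, ?_⟩
        · intro z hz
          rcases a6 z hz with h3 | ⟨w, h3, h4⟩
          · exact Or.inl h3
          · exact Or.inr ⟨w, h3, hMsub z h4⟩
        · intro z hz
          rcases a7 z hz with h3 | ⟨w, h3, h4⟩
          · exact Or.inl h3
          · exact Or.inr ⟨w, h3, hMsub z h4⟩
      · intro S' T' x' y' N' own' hm hg
        exact ih _ (hn ▸ hm) S' T' x' y' N' own' rfl hg
    exact hcrit.false

end Core

/-- A pair of parts `U, W` is a friendly partition of the digraph with arc relation `E`: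
the parts are nonempty, disjoint, cover everything, and every vertex has an out-neighbour in
its own part. -/
def Friendly {V : Type*} (E : V → V → Prop) (U W : Set V) : Prop :=
  U ∪ W = Set.univ ∧ Disjoint U W ∧ U.Nonempty ∧ W.Nonempty ∧
    (∀ v ∈ U, ∃ w ∈ U, E v w) ∧ (∀ v ∈ W, ∃ w ∈ W, E v w)

/-- A vertex set is separable if some friendly partition has both parts meeting it. -/
def Separable {V : Type*} (E : V → V → Prop) (A : Set V) : Prop :=
  ∃ U W : Set V, Friendly E U W ∧ (U ∩ A).Nonempty ∧ (W ∩ A).Nonempty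

/-- the strong form, giving a friendly partition with `x` and `y` in different parts -/
theorem separate_of_roots {V : Type*} [Finite V] (E : V → V → Prop) (hE : ∀ v, ¬ E v v)
    (x y : V) (hxy : x ≠ y) (hx : 2 ≤ {w | E x w ∧ w ≠ y}.ncard)
    (hy : 2 ≤ {w | E y w ∧ w ≠ x}.ncard)
    (hd : ∀ v, v ≠ x → v ≠ y → 3 ≤ {w | E v w}.ncard) :
    ∃ U W : Set V, Friendly E U W ∧ x ∈ U ∧ y ∈ W := by
  classical
  have := Fintype.ofFinite V
  let N : V → Finset V := fun v => Finset.univ.filter (fun w => E v w)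
  have hN : ∀ v w, w ∈ N v ↔ E v w := by
    intro v w
    simp [N]
  have hcard : ∀ v, (N v).card = {w | E v w}.ncard := by
    intro v
    rw [← Set.ncard_coe_finset]
    congr 1
    ext w
    simp [N]
  have hcx : ((N x).erase y).card = {w | E x w ∧ w ≠ y}.ncard := by
    rw [← Set.ncard_coe_finset]
    congr 1
    ext w
    simp only [coe_erase, Set.mem_sdiff, mem_coe, hN, Set.mem_singleton_iff]
    exact Iff.rfl
  have hcy : ((N y).erase x).card = {w | E y w ∧ w ≠ x}.ncard := by
    rw [← Set.ncard_coe_finset]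
    congr 1
    ext w
    simp only [coe_erase, Set.mem_sdiff, mem_coe, hN, Set.mem_singleton_iff]
    exact Iff.rfl
  have hg : Good (univ : Finset V) ∅ x y N id := by
    refine ⟨by simp, by simp, by simp, by simp, by simp, hxy, by simp, ?_, ?_, ?_, ?_, ?_⟩
    · intro v _ _ hh
      exact hE v ((hN v v).1 hh)
    · rw [hcx]; exact hx
    · rw [hcy]; exact hy
    · intro w _ _ h1 h2
      left
      rw [hcard]
      exact hd w h1 h2
    · intro w _ _ h1 h2 h3
      exfalso
      rw [hcard] at h3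
      have := hd w h1 h2
      omega
  obtain ⟨P, Q, _, _, hdis, hxP, hyQ, okP, okQ⟩ := Good.sol _ _ _ _ _ _ _ rfl hg
  -- a maximal good set around `P` avoiding `Q`
  let F : Finset (Finset V) :=
    Finset.univ.filter (fun R => P ⊆ R ∧ Disjoint R Q ∧ OK ∅ N R)
  have hF : P ∈ F := by
    simp only [F, mem_filter, mem_univ, true_and]
    exact ⟨subset_rfl, hdis, okP⟩
  obtain ⟨U, hUF, hUmax⟩ := exists_max_image F card ⟨P, hF⟩
  simp only [F, mem_filter, mem_univ, true_and] at hUF
  obtain ⟨hPU, hUQ, okU⟩ := hUF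
  have hQU : ∀ z ∈ Q, z ∉ U := fun z hz hh => disjoint_left.1 hUQ hh hz
  refine ⟨(U : Set V), ((Uᶜ : Finset V) : Set V), ⟨?_, ?_, ⟨x, hPU hxP⟩, ⟨y, ?_⟩, ?_, ?_⟩,
    hPU hxP, ?_⟩
  · rw [← coe_union, union_compl, coe_univ]
  · rw [disjoint_coe]
    exact disjoint_compl_right
  · simpa using hQU y hyQ
  · intro v hv
    rcases okU v hv with h1 | ⟨w, h1, h2⟩
    · simp at h1
    · exact ⟨w, h1, (hN v w).1 h2⟩
  · intro v hv
    by_contra hcon
    push Not at hcon
    have hvU : v ∉ U := by simpa using hv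
    have hvQ : v ∉ Q := by
      intro hvQ
      rcases okQ v hvQ with h1 | ⟨w, h1, h2⟩
      · simp at h1
      · exact hcon w (by simpa using hQU w h1) ((hN v w).1 h2)
    have hout : ∃ w, w ∈ N v := by
      have : 0 < (N v).card := by
        by_cases h1 : v = x
        · subst h1
          exact absurd (hPU hxP) hvU
        · by_cases h2 : v = y
          · subst h2
            exact absurd hyQ hvQ
          · rw [hcard]
            have := hd v h1 h2
            omega
      exact card_pos.1 this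
    obtain ⟨w, hw⟩ := hout
    have hwU : w ∈ U := by
      by_contra hh
      exact hcon w (by simpa using hh) ((hN v w).1 hw)
    have hmem : insert v U ∈ F := by
      simp only [F, mem_filter, mem_univ, true_and]
      refine ⟨hPU.trans (subset_insert _ _), ?_, ?_⟩
      · rw [disjoint_insert_left]
        exact ⟨hvQ, hUQ⟩
      · intro z hz
        rw [mem_insert] at hz
        rcases hz with rfl | hz
        · exact Or.inr ⟨w, mem_insert_of_mem hwU, hw⟩
        · rcases okU z hz with h1 | ⟨q, h1, h2⟩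
          · exact Or.inl h1
          · exact Or.inr ⟨q, mem_insert_of_mem h1, h2⟩
    have := hUmax _ hmem
    rw [card_insert_of_notMem hvU] at this
    omega
  · simpa using hQU y hyQ

/-- The set of friendly partitions, each recorded as the unordered pair of its parts. -/
def friendlyPartitions {V : Type*} (E : V → V → Prop) : Set (Set (Set V)) :=
  {p | ∃ U W : Set V, Friendly E U W ∧ p = {U, W}}

/-- if all pairs are separated there are at least `log₂ n` friendly partitions -/
theorem card_le_of_separated {V : Type} [Finite V] (E : V → V → Prop)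
    (hsep : ∀ x y : V, x ≠ y → ∃ U W : Set V, Friendly E U W ∧ x ∈ U ∧ y ∈ W) :
    Nat.card V ≤ 2 ^ (friendlyPartitions E).ncard := by
  classical
  let φ : V → Set (friendlyPartitions E) := fun v => {p | v ∈ Classical.choose p.2}
  have hφ : Function.Injective φ := by
    intro v w hvw
    by_contra hne
    obtain ⟨U0, W0, hF, hv, hw⟩ := hsep v w hne
    have hdis : Disjoint U0 W0 := hF.2.1
    let p0 : friendlyPartitions E := ⟨{U0, W0}, U0, W0, hF, rfl⟩
    obtain ⟨W, hFW, hp⟩ := Classical.choose_spec p0.2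
    have hmem : Classical.choose p0.2 ∈ ({U0, W0} : Set (Set V)) := by
      have : ({U0, W0} : Set (Set V)) = {Classical.choose p0.2, W} := hp
      rw [this]
      simp
    have hiff : v ∈ Classical.choose p0.2 ↔ w ∈ Classical.choose p0.2 := by
      have h1 : p0 ∈ φ v ↔ p0 ∈ φ w := by rw [hvw]
      exact h1
    rcases hmem with h1 | h1
    · rw [h1] at hiff
      exact Set.disjoint_left.1 hdis (hiff.1 hv) hw
    · rw [Set.mem_singleton_iff] at h1
      rw [h1] at hiff
      exact Set.disjoint_left.1 hdis hv (hiff.2 hw)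
  have hfin : Finite (friendlyPartitions E) := inferInstance
  have := Fintype.ofFinite (friendlyPartitions E)
  have h1 : Nat.card V ≤ Nat.card (Set (friendlyPartitions E)) :=
    Nat.card_le_card_of_injective φ hφ
  rw [Nat.card_eq_fintype_card (α := Set (friendlyPartitions E)), Fintype.card_set,
    ← Nat.card_eq_fintype_card] at h1
  exact h1

/-- **Result.** (1) Q2: in a finite loopless digraph with all out-degrees at least three every pair
of distinct vertices is separated by a friendly partition. (2) Q1: hence there are `d` and `s`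
(namely `d = 3`, `s = 2`) such that every `s`-element vertex set of every digraph of minimum
out-degree at least `d` is separable. (3) The stronger form: the two vertices `x, y` themselves
need only two out-neighbours each besides the other one. (4) A digraph on `n` vertices with all
out-degrees at least three has at least `log₂ n` friendly partitions. -/
theorem result :
    (∀ (V : Type) [Finite V] (E : V → V → Prop), (∀ v, ¬ E v v) →
      (∀ v, 3 ≤ {w | E v w}.ncard) → ∀ x y : V, x ≠ y → Separable E {x, y}) ∧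
    (∃ d s : ℕ, d = 3 ∧ s = 2 ∧ ∀ (V : Type) [Finite V] (E : V → V → Prop), (∀ v, ¬ E v v) →
      (∀ v, d ≤ {w | E v w}.ncard) → ∀ A : Set V, A.ncard = s → Separable E A) ∧
    (∀ (V : Type) [Finite V] (E : V → V → Prop), (∀ v, ¬ E v v) → ∀ x y : V, x ≠ y →
      2 ≤ {w | E x w ∧ w ≠ y}.ncard → 2 ≤ {w | E y w ∧ w ≠ x}.ncard →
      (∀ v, v ≠ x → v ≠ y → 3 ≤ {w | E v w}.ncard) → Separable E {x, y}) ∧
    (∀ (V : Type) [Finite V] (E : V → V → Prop), (∀ v, ¬ E v v) →
      (∀ v, 3 ≤ {w | E v w}.ncard) → Nat.card V ≤ 2 ^ (friendlyPartitions E).ncard) := by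
  have h3 : ∀ (V : Type) [Finite V] (E : V → V → Prop), (∀ v, ¬ E v v) → ∀ x y : V, x ≠ y →
      2 ≤ {w | E x w ∧ w ≠ y}.ncard → 2 ≤ {w | E y w ∧ w ≠ x}.ncard →
      (∀ v, v ≠ x → v ≠ y → 3 ≤ {w | E v w}.ncard) → Separable E {x, y} := by
    intro V _ E hE x y hxy hx hy hd
    obtain ⟨U, W, hF, hxU, hyW⟩ := separate_of_roots E hE x y hxy hx hy hd
    exact ⟨U, W, hF, ⟨x, hxU, by simp⟩, ⟨y, hyW, by simp⟩⟩
  have hh : ∀ (V : Type) [Finite V] (E : V → V → Prop), (∀ v, 3 ≤ {w | E v w}.ncard) →
      ∀ a b : V, 2 ≤ {w | E a w ∧ w ≠ b}.ncard := by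
    intro V _ E hd a b
    have h4 : {w | E a w ∧ w ≠ b} = {w | E a w} \ {b} := by
      ext w
      exact Iff.rfl
    rw [h4]
    have h5 := Set.le_ncard_sdiff {b} {w | E a w} (Set.toFinite _)
    rw [Set.ncard_singleton] at h5
    have := hd a
    omega
  have h1 : ∀ (V : Type) [Finite V] (E : V → V → Prop), (∀ v, ¬ E v v) →
      (∀ v, 3 ≤ {w | E v w}.ncard) → ∀ x y : V, x ≠ y → Separable E {x, y} := by
    intro V _ E hE hd x y hxy
    exact h3 V E hE x y hxy (hh V E hd x y) (hh V E hd y x) (fun v _ _ => hd v)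
  refine ⟨h1, ⟨3, 2, rfl, rfl, ?_⟩, h3, ?_⟩
  · intro V _ E hE hd A hA
    obtain ⟨x, y, hxy, rfl⟩ := Set.ncard_eq_two.1 hA
    exact h1 V E hE hd x y hxy
  · intro V _ E hE hd
    apply card_le_of_separated E
    intro x y hxy
    exact separate_of_roots E hE x y hxy (hh V E hd x y) (hh V E hd y x) (fun v _ _ => hd v)

end Pool.Agent.Results.MP_97603a_co.PairsSeparated
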